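import Pool.Agent.MP_ae7646_al.Inv

set_option autoImplicit false

namespace Pool.Agent.Results.MP_ae7646_al.Involutory

/-- Over an algebraically closed field of characteristic zero, if one of the two
finite-dimensional Hopf algebras `A`, `H` has an antipode of square the identity, then the Hopf
algebras that factorize as `A · H` fall into finitely many isomorphism classes. -/
theorem result :
    ∀ (k : Type) [Field k] [IsAlgClosed k] [CharZero k] (A H : Type) [Ring A] [HopfAlgebra k A]
      [Ring H] [HopfAlgebra k H], FiniteDimensional k A → FiniteDimensional k H →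
      ((∀ a : A, HopfAlgebra.antipode k (HopfAlgebra.antipode k a) = a) ∨
        ∀ h : H, HopfAlgebra.antipode k (HopfAlgebra.antipode k h) = h) →
      ∀ (E : ℕ → Type) [∀ m, Ring (E m)] [∀ m, HopfAlgebra k (E m)],
        (∀ m, ∃ (i : BialgHom k A (E m)) (j : BialgHom k H (E m)),
            Function.Injective i ∧ Function.Injective j ∧
            Function.Bijective
              (TensorProduct.lift
                (((LinearMap.mul k (E m)).comp i.toLinearMap).compl₂ j.toLinearMap))) →
        ∃ m m' : ℕ, m ≠ m' ∧ Nonempty (BialgEquiv k (E m) (E m')) := by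
  intro k _ _ _ A H _ _ _ _ _ _ hS E _ _ hE
  refine Pool.Agent.MP_ae7646_al.F.main k A H hS E fun m => ?_
  obtain ⟨i, j, -, -, h⟩ := hE m
  exact ⟨i, j, h⟩

end Pool.Agent.Results.MP_ae7646_al.Involutory
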